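import Pool.Agent.W_a4f561_E.Dr8
import Pool.Agent.W_a4f561_h26.Red
import Pool.Agent.W_a4f561_P16.Num16

/-!
MP_a4f561_co, polylog pages: from the count of unmerged pairs for bars to pages of drawings (helper8).
-/

set_option autoImplicit false

namespace Pool.Agent.W_a4f561_P8

open Pool.Agent.W_a4f561_h26 Pool.Agent.W_a4f561_E Pool.Agent.W_a4f561_P16

/-- The number of ranks. -/
noncomputable def nrk {V : Type} [Fintype V] (G : Bars V) : ℕ :=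
  (Nat.log 2 (G.N + 1) + 1) * (Nat.log 2 (Fintype.card V) + 1)

/-- The number of unmerged pairs. -/
def tot (L R : ℕ) : ℕ := R * (R + 1) * (2 * NN L R + 3) * (3 * NN L R + 3)

/-- The theorem on bars which the final needs. -/
def BarsCB : Prop :=
  ∀ (V : Type) [Fintype V] [DecidableEq V] (G : Bars V) (L : ℕ), 1 ≤ L → Fintype.card V ≤ 2 ^ L →
    ∃ π : V → V, Ch G π ∧ CB G π Set.univ (tot L (nrk G)) ∧ CB G.mir π Set.univ (tot L (nrk G))

theorem tot_mono {L R R' : ℕ} (h : R ≤ R') : tot L R ≤ tot L R' := by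
  have h1 : NN L R ≤ NN L R' := by
    unfold NN
    gcongr
  unfold tot
  gcongr

theorem bt_of_bars (H : BarsCB) (M : ℕ) : BT M (2 ^ 36 * (Nat.log 2 M + 1) ^ 10) := by
  intro V _ _ G hN hM
  set L := Nat.log 2 (Fintype.card V) + 1 with hL
  have hL1 : 1 ≤ L := by omega
  have hc : Fintype.card V ≤ 2 ^ L := (Nat.lt_pow_succ_log_self (by norm_num) _).le
  obtain ⟨π, h1, h2, h3⟩ := H V G L hL1 hc
  obtain ⟨σ, s1, s2, s3⟩ := red G h1 h2 h3
  refine ⟨σ, s1, s2, fun T hT hx => (s3 T hT hx).trans ?_⟩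
  have hlog : Nat.log 2 (G.N + 1) + 1 ≤ 5 * L := by
    have h4 : Nat.log 2 (G.N + 1) ≤ Nat.log 2 (2 ^ 4 * Fintype.card V) := Nat.log_mono_right (by omega)
    rcases Nat.eq_zero_or_pos (Fintype.card V) with h0 | h0
    · rw [h0, mul_zero, Nat.log_zero_right] at h4
      omega
    have h5 : Nat.log 2 (2 ^ 4 * Fintype.card V) < L + 4 := by
      refine Nat.log_lt_of_lt_pow (by omega) ?_
      rw [pow_add, mul_comm]
      refine Nat.mul_lt_mul_of_pos_right ?_ (by positivity)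
      exact Nat.lt_pow_succ_log_self (by norm_num) _
    omega
  have hR : nrk G ≤ 5 * L ^ 2 := by
    calc nrk G ≤ (5 * L) * L := Nat.mul_le_mul_right _ hlog
      _ = 5 * L ^ 2 := by ring
  calc 3 + 4 * tot L (nrk G) ≤ 2 ^ 36 * L ^ 10 := total_le hL1 hR
    _ ≤ 2 ^ 36 * (Nat.log 2 M + 1) ^ 10 := by
      refine Nat.mul_le_mul_left _ (Nat.pow_le_pow_left ?_ _)
      have := Nat.log_mono_right (b := 2) hM
      omega

theorem final_of (H : BarsCB) : ∃ C : ℝ, ∀ (n : ℕ) (_ : 2 ≤ n) (G : Digraph (Fin n)) (f : Fin n → ℝ × ℝ)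
    (_ : Function.Injective f) (γ : Fin n → Fin n → ℝ → ℝ × ℝ)
    (_ : ∀ u v, G.Adj u v →
      ContinuousOn (γ u v) (Set.Icc (0:ℝ) 1) ∧
      γ u v 0 = f u ∧ γ u v 1 = f v ∧
      StrictMonoOn (fun t => (γ u v t).2) (Set.Icc (0:ℝ) 1) ∧
      (∀ w, ∀ s ∈ Set.Ioo (0:ℝ) 1, γ u v s ≠ f w))
    (_ : ∀ u v u' v', G.Adj u v → G.Adj u' v' → (u, v) ≠ (u', v') →
      ∀ s ∈ Set.Ioo (0:ℝ) 1, ∀ t ∈ Set.Icc (0:ℝ) 1, γ u v s ≠ γ u' v' t),
    ∃ (σ : Fin n ≃ Fin n) (k : ℕ) (p : Fin n → Fin n → Fin k),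
      (k:ℝ) ≤ C * Real.log n ^ 11 ∧
      (∀ u v, G.Adj u v → σ u < σ v) ∧
      (∀ a b c d, G.Adj a b → G.Adj c d → p a b = p c d → ¬ (σ a < σ c ∧ σ c < σ b ∧ σ b < σ d)) := by
  refine ⟨2 ^ 36 * 7 ^ 11, ?_⟩
  intro n hn G f hf γ h1 h2
  obtain ⟨σ, p, s1, s2⟩ := pages_of_BT (by positivity) (bt_of_bars H (n + 4)) n le_rfl G f hf γ h1 h2
  exact ⟨σ, _, p, pages_num hn, s1, s2⟩

end Pool.Agent.W_a4f561_P8
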