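import Pool.Agent.W_a4f561_h26.Bas
import Pool.Agent.W_a4f561_h33.Rnd2

/-!
MP_a4f561_co, polylog pages: the ranks of the roots and the separation of walks (helper8).
-/

set_option autoImplicit false

namespace Pool.Agent.W_a4f561_P8

open Pool.Agent.W_a4f561_h26

variable {V : Type} {G : Bars V}

/-- One step of a walk which avoids `U`. -/
def WStep (G : Bars V) (U : Set V) (a b : V) : Prop := G.inn a ∧ (b = G.lo a ∨ b = G.up a) ∧ b ∉ U

/-- `b` is reached from `a` by a walk which avoids `U` after its start. -/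
def Walk (G : Bars V) (U : Set V) (a b : V) : Prop := Relation.ReflTransGen (WStep G U) a b

theorem Walk.refl {U : Set V} (a : V) : Walk G U a a := Relation.ReflTransGen.refl

theorem Walk.trans {U : Set V} {a b c : V} (h : Walk G U a b) (h' : Walk G U b c) : Walk G U a c :=
  Relation.ReflTransGen.trans h h'

theorem Walk.tail {U : Set V} {a b c : V} (h : Walk G U a b) (h' : WStep G U b c) : Walk G U a c :=
  Relation.ReflTransGen.tail h h'

theorem Walk.anti {U U' : Set V} {a b : V} (h : Walk G U a b) (hU : U' ⊆ U) : Walk G U' a b := by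
  induction h with
  | refl => exact Walk.refl _
  | tail _ hxy ih => exact ih.tail ⟨hxy.1, hxy.2.1, fun h' => hxy.2.2 (hU h')⟩

theorem Walk.not_mem {U : Set V} {a b : V} (h : Walk G U a b) (ha : a ∉ U) : b ∉ U := by
  rcases Relation.ReflTransGen.cases_tail_iff (WStep G U) a b |>.1 h with rfl | ⟨c, _, h1⟩
  · exact ha
  · exact h1.2.2

/-- A step of a walk goes to a vertex which is alive at the death and lives longer. -/
theorem WStep.al {U : Set V} {a b : V} (h : WStep G U a b) : G.al b (G.t a) ∧ G.al b (G.t a + 1) ∧ G.t a < G.t b := by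
  rcases h.2.1 with rfl | rfl
  · exact ⟨(al_lo G h.1).1, (al_lo G h.1).2, t_lo G h.1⟩
  · exact ⟨(al_up G h.1).1, (al_up G h.1).2, t_up G h.1⟩

theorem Walk.t_le {U : Set V} {a b : V} (h : Walk G U a b) : G.t a ≤ G.t b := by
  induction h with
  | refl => exact le_rfl
  | tail _ h ih => exact ih.trans h.al.2.2.le

/-- A route of a choice function is a walk, as long as it avoids `U`. -/
theorem walk_of_orb {π : V → V} (h : Ch G π) {U : Set V} {a b : V} (hb : b ∉ U) (hbt : G.bot ∈ U) (htp : G.top ∈ U)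
    (hab : Orb π a b) (hav : ∀ w, Orb π a w → G.t w ≤ G.t b → w ∉ U) : Walk G U a b := by
  obtain ⟨k, rfl⟩ := hab
  have ht : ∀ j, j ≤ k → G.t (π^[j] a) ≤ G.t (π^[k] a) := by
    intro j hj
    refine orb_t h ⟨k - j, ?_⟩
    rw [← Function.iterate_add_apply]
    congr 2
    omega
  have key : ∀ j, j ≤ k → Walk G U a (π^[j] a) := by
    intro j
    induction j with
    | zero => exact fun _ => Walk.refl _
    | succ j ih =>
      intro hj
      have h1 := ih (by omega)
      have h2 := hav _ ⟨j, rfl⟩ (ht j (by omega))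
      have hi : G.inn (π^[j] a) := ⟨fun e => h2 (e ▸ hbt), fun e => h2 (e ▸ htp)⟩
      refine h1.tail ⟨hi, ?_, hav _ ⟨j + 1, rfl⟩ (ht _ hj)⟩
      rw [Function.iterate_succ_apply']
      exact h.2.2 _ hi
  exact key k le_rfl

/-- A walk which starts strictly below the route of `u ∈ U` stays strictly below it. -/
theorem walk_below {π : V → V} (h : Ch G π) {U : Set V} (hU : ∀ w ∈ U, π w ∈ U) (hbt : G.bot ∈ U) (htp : G.top ∈ U)
    {a b u : V} {τ : ℕ} (hu : u ∈ U) (ha : a ∉ U) (hab : Walk G U a b) (b1 : G.b a ≤ τ) (t1 : τ ≤ G.t a)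
    (b2 : G.b u ≤ τ) (k : G.r a < G.r (host G π u τ)) : G.r b < G.r (host G π u (G.t b)) := by
  have hmem : ∀ s, host G π u s ∈ U := by
    intro s
    obtain ⟨j, hj⟩ := host_orb G π u s
    rw [← hj]
    clear hj
    induction j with
    | zero => exact hu
    | succ j ih =>
      rw [Function.iterate_succ_apply']
      exact hU _ ih
  have hinn : ∀ w, w ∉ U → G.inn w := fun w hw => ⟨fun e => hw (e ▸ hbt), fun e => hw (e ▸ htp)⟩
  have hN : ∀ w, w ∉ U → G.t w ≤ G.N := fun w hw => (G.t_in w (hinn w hw).1 (hinn w hw).2).le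
  -- while the bar `w` is alive the route stays above it
  have hmove : ∀ w s s', w ∉ U → G.b w ≤ s → s ≤ s' → s' ≤ G.t w → G.b u ≤ s → G.r w < G.r (host G π u s) →
      G.r w < G.r (host G π u s') := by
    intro w s s' hw h1 h2 h3 h4 h5
    have m := order_one h h1 h4 h2 (h3.trans (hN w hw)) (by
      rw [host_self h (h2.trans h3)]
      exact h5.le)
    rw [host_self h h3] at m
    refine lt_of_le_of_ne m fun e => hw ?_
    rw [G.r_inj e]
    exact hmem s'
  induction hab with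
  | refl => exact hmove a τ (G.t a) ha b1 t1 le_rfl b2 k
  | @tail c d hac hcd ih =>
    have hc : c ∉ U := Walk.not_mem hac ha
    have hd : d ∉ U := hcd.2.2
    have hci := hinn c hc
    have hbu : G.b u ≤ G.t c := b2.trans (t1.trans (Walk.t_le hac))
    have hal := host_al h hbu (hN c hc)
    have h1 : G.r d < G.r (host G π u (G.t c)) := by
      rcases hcd.2.1 with e | e
      · rw [e]
        exact (r_lo G hci).trans ih
      · have h2 : G.r d ≤ G.r (host G π u (G.t c)) := by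
          rw [e]
          exact (ub_spec G (hN c hc) hci.2).2.2 _ hal ih
        refine lt_of_le_of_ne h2 fun e' => hd ?_
        rw [G.r_inj e']
        exact hmem _
    exact hmove d (G.t c) (G.t d) hd hcd.al.1.1 hcd.al.2.2.le le_rfl hbu h1

theorem walk_mir {U : Set V} {a b : V} (h : Walk G U a b) : Walk G.mir U a b := by
  induction h with
  | refl => exact Walk.refl _
  | tail _ hxy ih =>
    refine ih.tail ⟨(inn_mir G).2 hxy.1, ?_, hxy.2.2⟩
    rw [mir_up', mir_lo']
    exact hxy.2.1.symm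

/-- A walk which starts strictly above the route of `u ∈ U` stays strictly above it. -/
theorem walk_above {π : V → V} (h : Ch G π) {U : Set V} (hU : ∀ w ∈ U, π w ∈ U) (hbt : G.bot ∈ U) (htp : G.top ∈ U)
    {a b u : V} {τ : ℕ} (hu : u ∈ U) (ha : a ∉ U) (hab : Walk G U a b) (b1 : G.b a ≤ τ) (t1 : τ ≤ G.t a)
    (b2 : G.b u ≤ τ) (k : G.r (host G π u τ) < G.r a) : G.r (host G π u (G.t b)) < G.r b := by
  have h1 := walk_below (G := G.mir) (ch_mir.2 h) hU htp hbt hu ha (walk_mir hab) b1 t1 b2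
    ((Pool.Agent.W_a4f561_B31.mir_r_lt G _ _).2 k)
  exact (Pool.Agent.W_a4f561_B31.mir_r_lt G _ _).1 h1

/-! ### Ranks -/

/-- The properties of the ranks. -/
structure Rks (G : Bars V) (rk : V → ℕ) : Prop where
  sep : ∀ v w, G.inn v → G.inn w → v ≠ w → rk v = rk w →
    (∃ τ, (G.t v < τ ∧ τ < G.b w ∨ G.t w < τ ∧ τ < G.b v) ∧ ∀ u, G.b u ≤ τ → τ ≤ G.t u → rk u < rk v) ∨
    (∃ τ u, G.b v ≤ τ ∧ τ ≤ G.t v ∧ G.b w ≤ τ ∧ τ ≤ G.t w ∧ G.b u ≤ τ ∧ τ ≤ G.t u ∧
      (G.r v < G.r u ∧ G.r u < G.r w ∨ G.r w < G.r u ∧ G.r u < G.r v) ∧ rk u < rk v)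
  win : ∀ v, G.inn v → ∃ T0 T1, G.b v ≤ T0 ∧ T0 ≤ G.t v ∧ G.t v < T1 ∧
    (T1 ≤ G.N → ∀ u, G.b u ≤ T1 → T1 ≤ G.t u → rk u < rk v) ∧
    (∀ w, G.inn w → T0 < G.b w → G.t w < T1 → rk v < rk w)

theorem exists_ranks [Fintype V] (G : Bars V) :
    ∃ rk : V → ℕ, (∀ v, rk v < (Nat.log 2 (G.N + 1) + 1) * (Nat.log 2 (Fintype.card V) + 1)) ∧ Rks G rk := by
  let _ : LinearOrder V := LinearOrder.lift' G.r G.r_inj
  obtain ⟨r, h1, h2, h3⟩ := Pool.Agent.W_a4f561_h33.rounds2 G.b (fun v => min (G.t v) G.N) (fun v => by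
    refine le_min (G.bt v) ?_
    by_cases k1 : v = G.bot
    · rw [k1, G.b_bot]; exact Nat.zero_le _
    · by_cases k2 : v = G.top
      · rw [k2, G.b_top]; exact Nat.zero_le _
      · exact (G.bt v).trans (G.t_in v k1 k2).le) G.N (fun v => min_le_right _ _)
  have e1 : ∀ v, G.inn v → min (G.t v) G.N = G.t v := fun v hv => min_eq_left (G.t_in v hv.1 hv.2).le
  refine ⟨r, h1, ⟨fun v w hv hw hne he => ?_, fun v hv => ?_⟩⟩
  · rcases h2 v w hne he with ⟨τ, k1, k2⟩ | ⟨τ, x, k1, k2, k3, k4, k5, k6, k7, k8⟩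
    · simp only [e1 v hv, e1 w hw] at k1
      refine Or.inl ⟨τ, k1, fun u u1 u2 => k2 u u1 (le_min u2 ?_)⟩
      rcases k1 with k1 | k1
      · have := G.t_in w hw.1 hw.2
        have := G.bt w
        omega
      · have := G.t_in v hv.1 hv.2
        have := G.bt v
        omega
    · simp only [e1 v hv, e1 w hw] at k2 k4
      exact Or.inr ⟨τ, x, k1, k2, k3, k4, k5, k6.trans (min_le_left _ _), k7, k8⟩
  · obtain ⟨T0, T1, k1, k2, k3, k4, k5⟩ := h3 v
    rw [e1 v hv] at k2 k3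
    refine ⟨T0, T1, k1, k2, k3, fun hT u u1 u2 => k4 u u1 (le_min u2 hT), fun w hw w1 w2 => ?_⟩
    refine k5 w w1 ?_
    rw [e1 w hw]
    exact w2

/-- **SEPARATION OF WALKS**: two inner vertices of the same rank outside of `U` (closed, with all vertices of smaller
rank) do not reach a common vertex by walks which avoid `U`. -/
theorem sep_walk {rk : V → ℕ} (hr : Rks G rk) {π : V → V} (h : Ch G π) {U : Set V} (hU : ∀ w ∈ U, π w ∈ U)
    (hbt : G.bot ∈ U) (htp : G.top ∈ U) {v v' w : V} (hne : v ≠ v') (he : rk v = rk v')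
    (hlow : ∀ u, rk u < rk v → u ∈ U) (hv : v ∉ U) (hv' : v' ∉ U) (hw : Walk G U v w) (hw' : Walk G U v' w) :
    False := by
  have hinn : ∀ w, w ∉ U → G.inn w := fun w hw => ⟨fun e => hw (e ▸ hbt), fun e => hw (e ▸ htp)⟩
  have htime : ∀ {v v' : V}, v ∉ U → v' ∉ U → Walk G U v w → Walk G U v' w → ∀ τ, G.t v < τ → τ < G.b v' →
      (∀ u, G.b u ≤ τ → τ ≤ G.t u → u ∈ U) → False := by
    intro v v' hv hv' hw hw' τ h1 h2 h3
    have h4 : τ < G.t w := h2.trans_le ((G.bt v').trans hw'.t_le)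
    have key : ∀ z, Walk G U v z → G.t z < τ := by
      intro z hz
      induction hz with
      | refl => exact h1
      | @tail c d hac hcd ih =>
        by_contra hc
        exact hcd.2.2 (h3 d (hcd.al.1.1.trans ih.le) (not_lt.1 hc))
    have := key w hw
    omega
  have hht : ∀ {v v' : V}, v ∉ U → v' ∉ U → Walk G U v w → Walk G U v' w → ∀ τ u, G.b v ≤ τ → τ ≤ G.t v → G.b v' ≤ τ →
      τ ≤ G.t v' → G.b u ≤ τ → τ ≤ G.t u → G.r v < G.r u → G.r u < G.r v' → u ∈ U → False := by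
    intro v v' hv hv' hw hw' τ u k1 k2 k3 k4 k5 k6 k7 k8 hu
    have x1 := walk_below h hU hbt htp hu hv hw k1 k2 k5 (by rw [host_self h k6]; exact k7)
    have x2 := walk_above h hU hbt htp hu hv' hw' k3 k4 k5 (by rw [host_self h k6]; exact k8)
    omega
  rcases hr.sep v v' (hinn v hv) (hinn v' hv') hne he with ⟨τ, k1 | k1, k2⟩ | ⟨τ, x, k1, k2, k3, k4, k5, k6, k7 | k7, k8⟩
  · exact htime hv hv' hw hw' τ k1.1 k1.2 fun u u1 u2 => hlow u (k2 u u1 u2)
  · exact htime hv' hv hw' hw τ k1.1 k1.2 fun u u1 u2 => hlow u (k2 u u1 u2)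
  · exact hht hv hv' hw hw' τ x k1 k2 k3 k4 k5 k6 k7.1 k7.2 (hlow x k8)
  · exact hht hv' hv hw' hw τ x k3 k4 k1 k2 k5 k6 k7.1 k7.2 (hlow x k8)

end Pool.Agent.W_a4f561_P8
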