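import Pool.Agent.W_a4f561_P13.Piece13
import Pool.Agent.W_a4f561_P8.End8P

/-!
MP_a4f561_co, polylog pages: from one phase to pages of drawings (helper8). Open: `PhaseStep`.
-/

set_option autoImplicit false

namespace Pool.Agent.W_a4f561_P8

open Pool.Agent.W_a4f561_h26 Pool.Agent.W_a4f561_P16 Pool.Agent.W_a4f561_P13

theorem cb_mono8 {V : Type} {G : Bars V} {π : V → V} {A : Set V} {C C' : ℕ} (h : CB G π A C) (hC : C ≤ C') :
    CB G π A C' := fun p T P h1 h2 h3 h4 => (h p T P h1 h2 h3 h4).trans hC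

/-- The one phase for all bars. -/
def PhaseAll : Prop :=
  ∀ (V : Type) [Fintype V] [DecidableEq V] (G : Bars V) (rnk : V → ℕ) (L : ℕ), 1 ≤ L → Fintype.card V ≤ 2 ^ L →
    Rks G rnk → (∀ v, rnk v < nrk G) → PhaseStep G rnk (NN L (nrk G))

theorem barsCB_of (H : PhaseAll) : BarsCB := by
  intro V _ _ G L hL hc
  obtain ⟨rnk, h1, h2⟩ := exists_ranks G
  obtain ⟨π, k1, k2, k3⟩ := bars_of_phase h2 h1 (H V G rnk L hL hc h2 h1)
  have hle : nrk G * ((nrk G + 1) * (2 * NN L (nrk G) + 2)) * (3 * NN L (nrk G) + 3) ≤ tot L (nrk G) := by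
    unfold tot
    refine Nat.mul_le_mul_right _ ?_
    rw [← mul_assoc]
    exact Nat.mul_le_mul_left _ (by omega)
  exact ⟨π, k1, cb_mono8 k2 hle, cb_mono8 k3 hle⟩

end Pool.Agent.W_a4f561_P8
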